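import Mathlib

/-!
# A quantitative Borel–Cantelli lemma for `k`-dependent events
-/

set_option autoImplicit false

open Filter Topology MeasureTheory Set
open scoped ENNReal

namespace Pool.Agent.Q3.CantorS

variable {Ω : Type*} [MeasurableSpace Ω] {μ : Measure Ω} [IsProbabilityMeasure μ]

/-- Number of events among the first `n` that occur. -/
noncomputable def cnt (A : ℕ → Set Ω) (n : ℕ) (ω : Ω) : ℝ :=
  ∑ i ∈ Finset.range n, (A i).indicator (fun _ => (1 : ℝ)) ω

/-- Expected number. -/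
noncomputable def mass (μ : Measure Ω) (A : ℕ → Set Ω) (n : ℕ) : ℝ :=
  ∑ i ∈ Finset.range n, μ.real (A i)

omit [IsProbabilityMeasure μ] in
theorem mass_mono (A : ℕ → Set Ω) : Monotone (mass μ A) := by
  refine monotone_nat_of_le_succ fun n => ?_
  unfold mass
  rw [Finset.sum_range_succ]
  linarith [measureReal_nonneg (μ := μ) (s := A n)]

omit [MeasurableSpace Ω] in
theorem cnt_mono (A : ℕ → Set Ω) (ω : Ω) : Monotone (fun n => cnt A n ω) := by
  refine monotone_nat_of_le_succ fun n => ?_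
  unfold cnt
  rw [Finset.sum_range_succ]
  linarith [indicator_nonneg (s := A n) (f := fun _ : Ω => (1 : ℝ)) (fun _ _ => zero_le_one) ω]

theorem integrable_ind {A : Set Ω} (hA : MeasurableSet A) :
    Integrable (A.indicator (fun _ => (1 : ℝ))) μ :=
  (integrable_const 1).indicator hA

theorem integrable_cnt {A : ℕ → Set Ω} (hA : ∀ i, MeasurableSet (A i)) (n : ℕ) :
    Integrable (cnt A n) μ := by
  have : cnt A n = fun ω => ∑ i ∈ Finset.range n, (A i).indicator (fun _ => (1 : ℝ)) ω := rfl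
  rw [this]
  exact integrable_finsetSum _ fun i _ => integrable_ind (hA i)

theorem integral_cnt {A : ℕ → Set Ω} (hA : ∀ i, MeasurableSet (A i)) (n : ℕ) :
    ∫ ω, cnt A n ω ∂μ = mass μ A n := by
  unfold cnt mass
  rw [integral_finsetSum _ fun i _ => integrable_ind (hA i)]
  refine Finset.sum_congr rfl fun i _ => ?_
  rw [integral_indicator_const _ (hA i)]
  simp

omit [MeasurableSpace Ω] in
theorem cnt_sq (A : ℕ → Set Ω) (n : ℕ) (ω : Ω) : cnt A n ω ^ 2 =
    ∑ i ∈ Finset.range n, ∑ j ∈ Finset.range n, (A i ∩ A j).indicator (fun _ => (1 : ℝ)) ω := by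
  unfold cnt
  rw [sq, Finset.sum_mul_sum]
  refine Finset.sum_congr rfl fun i _ => Finset.sum_congr rfl fun j _ => ?_
  by_cases h1 : ω ∈ A i <;> by_cases h2 : ω ∈ A j <;> simp [h1, h2]

theorem integral_cnt_sq {A : ℕ → Set Ω} (hA : ∀ i, MeasurableSet (A i)) (n : ℕ) :
    Integrable (fun ω => cnt A n ω ^ 2) μ ∧ ∫ ω, cnt A n ω ^ 2 ∂μ =
      ∑ i ∈ Finset.range n, ∑ j ∈ Finset.range n, μ.real (A i ∩ A j) := by
  simp_rw [cnt_sq]
  have h1 : ∀ i ∈ Finset.range n, Integrable (fun ω => ∑ j ∈ Finset.range n,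
      (A i ∩ A j).indicator (fun _ => (1 : ℝ)) ω) μ := fun i _ =>
    integrable_finsetSum _ fun j _ => integrable_ind ((hA i).inter (hA j))
  refine ⟨integrable_finsetSum _ h1, ?_⟩
  rw [integral_finsetSum _ h1]
  refine Finset.sum_congr rfl fun i _ => ?_
  rw [integral_finsetSum _ fun j _ => integrable_ind ((hA i).inter (hA j))]
  refine Finset.sum_congr rfl fun j _ => ?_
  rw [integral_indicator_const _ ((hA i).inter (hA j))]
  simp

/-- Second moment bound. -/
theorem second_moment {A : ℕ → Set Ω} (hA : ∀ i, MeasurableSet (A i)) {k : ℕ}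
    (hind : ∀ i j, i + k ≤ j → μ.real (A i ∩ A j) = μ.real (A i) * μ.real (A j)) (n : ℕ) :
    Integrable (fun ω => (cnt A n ω - mass μ A n) ^ 2) μ ∧
    ∫ ω, (cnt A n ω - mass μ A n) ^ 2 ∂μ ≤ (2 * k + 1) * mass μ A n := by
  obtain ⟨h1, h2⟩ := integral_cnt_sq (μ := μ) hA n
  have h3 := integrable_cnt (μ := μ) hA n
  have e : (fun ω => (cnt A n ω - mass μ A n) ^ 2) =
      fun ω => (cnt A n ω ^ 2 - (2 * mass μ A n) * cnt A n ω) + mass μ A n ^ 2 := by
    funext ω; ring
  have h4 : Integrable (fun ω => cnt A n ω ^ 2 - (2 * mass μ A n) * cnt A n ω) μ :=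
    h1.sub (h3.const_mul _)
  rw [e]
  refine ⟨h4.add (integrable_const _), ?_⟩
  rw [integral_add h4 (integrable_const _), integral_sub h1 (h3.const_mul _), integral_const_mul,
    integral_cnt hA, h2, integral_const, probReal_univ, one_smul]
  -- bound the double sum
  have hb : ∀ i j, μ.real (A i ∩ A j) ≤ μ.real (A i) * μ.real (A j) +
      (if i < j + k ∧ j < i + k ∨ i = j then μ.real (A i) else 0) := by
    intro i j
    have hmon : μ.real (A i ∩ A j) ≤ μ.real (A i) := measureReal_mono inter_subset_left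
    have hn1 := measureReal_nonneg (μ := μ) (s := A i)
    have hn2 := measureReal_nonneg (μ := μ) (s := A j)
    by_cases hc : i < j + k ∧ j < i + k ∨ i = j
    · rw [if_pos hc]; nlinarith
    · rw [if_neg hc, add_zero]
      push Not at hc
      rcases le_or_gt (i + k) j with h | h
      · exact (hind i j h).le
      · have h' : j + k ≤ i := by
          by_contra hlt
          push Not at hlt
          exact absurd (hc.1 hlt) (not_le.2 h)
        rw [inter_comm, mul_comm]
        exact (hind j i h').le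
  have hrow : ∀ i ∈ Finset.range n, ∑ j ∈ Finset.range n,
      (if i < j + k ∧ j < i + k ∨ i = j then μ.real (A i) else 0) ≤ (2 * k + 1) * μ.real (A i) := by
    intro i _
    rw [← Finset.sum_filter, Finset.sum_const, nsmul_eq_mul]
    apply mul_le_mul_of_nonneg_right _ measureReal_nonneg
    have hsub : (Finset.range n).filter (fun j => i < j + k ∧ j < i + k ∨ i = j) ⊆
        Finset.Ico (i - k) (i + k + 1) := by
      intro j hj
      rw [Finset.mem_filter] at hj
      rw [Finset.mem_Ico]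
      rcases hj.2 with h | h <;> omega
    have hc := Finset.card_le_card hsub
    rw [Nat.card_Ico] at hc
    have : ((Finset.range n).filter (fun j => i < j + k ∧ j < i + k ∨ i = j)).card ≤ 2 * k + 1 := by
      omega
    exact_mod_cast this
  have htot : ∑ i ∈ Finset.range n, ∑ j ∈ Finset.range n, μ.real (A i ∩ A j) ≤
      mass μ A n ^ 2 + (2 * k + 1) * mass μ A n := by
    calc _ ≤ ∑ i ∈ Finset.range n, ∑ j ∈ Finset.range n, (μ.real (A i) * μ.real (A j) +
          (if i < j + k ∧ j < i + k ∨ i = j then μ.real (A i) else 0)) :=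
          Finset.sum_le_sum fun i _ => Finset.sum_le_sum fun j _ => hb i j
      _ = mass μ A n ^ 2 + ∑ i ∈ Finset.range n, ∑ j ∈ Finset.range n,
          (if i < j + k ∧ j < i + k ∨ i = j then μ.real (A i) else 0) := by
          unfold mass
          rw [sq, Finset.sum_mul_sum, ← Finset.sum_add_distrib]
          refine Finset.sum_congr rfl fun i _ => ?_
          rw [Finset.sum_add_distrib]
      _ ≤ _ := by
          gcongr
          unfold mass
          rw [Finset.mul_sum]
          exact Finset.sum_le_sum hrow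
  linarith

/-- The quantitative Borel–Cantelli lemma. -/
theorem ae_ratio {A : ℕ → Set Ω} (hA : ∀ i, MeasurableSet (A i)) {k : ℕ}
    (hind : ∀ i j, i + k ≤ j → μ.real (A i ∩ A j) = μ.real (A i) * μ.real (A j))
    (hM : Tendsto (mass μ A) atTop atTop) :
    ∀ᵐ ω ∂μ, Tendsto (fun n => cnt A n ω / mass μ A n) atTop (𝓝 1) := by
  classical
  have hex : ∀ j : ℕ, ∃ n, ((j : ℝ) + 1) ^ 2 ≤ mass μ A n := fun j =>
    (hM.eventually_ge_atTop _).exists
  let N : ℕ → ℕ := fun j => Nat.find (hex j)
  have hN1 : ∀ j : ℕ, ((j : ℝ) + 1) ^ 2 ≤ mass μ A (N j) := fun j => Nat.find_spec (hex j)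
  have hNmono : ∀ a b : ℕ, a ≤ b → N a ≤ N b := by
    intro a b hab
    refine Nat.find_min' (hex a) ((show ((a : ℝ) + 1) ^ 2 ≤ ((b : ℝ) + 1) ^ 2 from ?_).trans (hN1 b))
    have : (a : ℝ) ≤ b := by exact_mod_cast hab
    gcongr
  have hN2 : ∀ j : ℕ, mass μ A (N j) ≤ ((j : ℝ) + 1) ^ 2 + 1 := by
    intro j
    have hpos : N j ≠ 0 := by
      intro h0
      have := hN1 j
      rw [h0] at this
      simp only [mass, Finset.range_zero, Finset.sum_empty] at this
      nlinarith [(Nat.cast_nonneg j : (0 : ℝ) ≤ j)]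
    obtain ⟨m, hm⟩ : ∃ m, N j = m + 1 := Nat.exists_eq_succ_of_ne_zero hpos
    have hlt := Nat.find_min (hex j) (show m < N j by omega)
    push Not at hlt
    rw [hm]
    have : mass μ A (m + 1) = mass μ A m + μ.real (A m) := by
      unfold mass; rw [Finset.sum_range_succ]
    rw [this]
    have h1 : μ.real (A m) ≤ 1 := measureReal_le_one
    linarith
  -- a.s. convergence along the subsequence
  let g : ℕ → Ω → ℝ := fun j ω => ((cnt A (N j) ω - mass μ A (N j)) / mass μ A (N j)) ^ 2
  have hsum : ∫⁻ ω, ∑' j, ENNReal.ofReal (g j ω) ∂μ ≠ ∞ := by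
    have hmeas : ∀ j, AEMeasurable (fun ω => ENNReal.ofReal (g j ω)) μ := by
      intro j
      have := (second_moment hA hind (N j)).1
      have e : g j = fun ω => (mass μ A (N j) ^ 2)⁻¹ * (cnt A (N j) ω - mass μ A (N j)) ^ 2 := by
        funext ω; simp only [g]; rw [div_pow]; ring
      rw [e]
      exact (this.const_mul _).aemeasurable.ennreal_ofReal
    rw [lintegral_tsum hmeas]
    have hle : ∀ j, ∫⁻ ω, ENNReal.ofReal (g j ω) ∂μ ≤
        ENNReal.ofReal ((2 * k + 1) * (1 / ((j : ℝ) + 1) ^ 2)) := by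
      intro j
      obtain ⟨h1, h2⟩ := second_moment hA hind (N j)
      have hMp : 0 < mass μ A (N j) := lt_of_lt_of_le (by positivity) (hN1 j)
      have e : g j = fun ω => (mass μ A (N j) ^ 2)⁻¹ * (cnt A (N j) ω - mass μ A (N j)) ^ 2 := by
        funext ω; simp only [g]; rw [div_pow]; ring
      rw [e, ← ofReal_integral_eq_lintegral_ofReal (h1.const_mul _)
        (Eventually.of_forall fun ω => by positivity), integral_const_mul]
      apply ENNReal.ofReal_le_ofReal
      calc (mass μ A (N j) ^ 2)⁻¹ * ∫ ω, (cnt A (N j) ω - mass μ A (N j)) ^ 2 ∂μ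
          ≤ (mass μ A (N j) ^ 2)⁻¹ * ((2 * k + 1) * mass μ A (N j)) :=
            mul_le_mul_of_nonneg_left h2 (by positivity)
        _ = (2 * k + 1) * (1 / mass μ A (N j)) := by field_simp
        _ ≤ (2 * k + 1) * (1 / ((j : ℝ) + 1) ^ 2) := by
            apply mul_le_mul_of_nonneg_left _ (by positivity)
            exact one_div_le_one_div_of_le (by positivity) (hN1 j)
    refine ne_of_lt (lt_of_le_of_lt (ENNReal.tsum_le_tsum hle) ?_)
    have hs : Summable fun j : ℕ => (2 * (k : ℝ) + 1) * (1 / ((j : ℝ) + 1) ^ 2) := by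
      apply Summable.mul_left
      have := (summable_nat_add_iff 1).2 (Real.summable_one_div_nat_pow.2 (show 1 < 2 by norm_num))
      simpa using this
    rw [← ENNReal.ofReal_tsum_of_nonneg (fun j => by positivity) hs]
    exact ENNReal.ofReal_lt_top
  have hae : ∀ᵐ ω ∂μ, ∑' j, ENNReal.ofReal (g j ω) < ∞ := by
    apply ae_lt_top' _ hsum
    refine AEMeasurable.tsum fun j => ?_
    have := (second_moment hA hind (N j)).1
    have e : g j = fun ω => (mass μ A (N j) ^ 2)⁻¹ * (cnt A (N j) ω - mass μ A (N j)) ^ 2 := by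
      funext ω; simp only [g]; rw [div_pow]; ring
    rw [e]
    exact (this.const_mul _).aemeasurable.ennreal_ofReal
  filter_upwards [hae] with ω hω
  have hg0 : Tendsto (fun j => g j ω) atTop (𝓝 0) := by
    have h1 := ENNReal.tendsto_atTop_zero_of_tsum_ne_top hω.ne
    have h2 := (ENNReal.tendsto_toReal ENNReal.zero_ne_top).comp h1
    refine h2.congr fun j => ?_
    simp only [Function.comp_apply]
    exact ENNReal.toReal_ofReal (by positivity)
  have hsub : Tendsto (fun j => cnt A (N j) ω / mass μ A (N j)) atTop (𝓝 1) := by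
    have h1 : Tendsto (fun j => |(cnt A (N j) ω - mass μ A (N j)) / mass μ A (N j)|) atTop (𝓝 0) := by
      have := (Real.continuous_sqrt.tendsto 0).comp hg0
      rw [Real.sqrt_zero] at this
      refine this.congr fun j => ?_
      exact Real.sqrt_sq_eq_abs _
    have h2 := (tendsto_zero_iff_abs_tendsto_zero _).2 h1
    have h3 := h2.add_const 1
    rw [zero_add] at h3
    refine h3.congr fun j => ?_
    have hMp : 0 < mass μ A (N j) := lt_of_lt_of_le (by positivity) (hN1 j)
    field_simp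
    ring
  -- interpolation
  rw [Metric.tendsto_atTop] at hsub ⊢
  intro ε hε
  obtain ⟨η, hη, hη1, hη2⟩ : ∃ η > 0, (1 + η) * (1 + η) < 1 + ε ∧ 1 - ε < (1 - η) / (1 + η) := by
    have c1 : Tendsto (fun η : ℝ => (1 + η) * (1 + η)) (𝓝[>] 0) (𝓝 1) := by
      have : Continuous fun η : ℝ => (1 + η) * (1 + η) := by fun_prop
      have h := (this.tendsto 0).mono_left (nhdsWithin_le_nhds (s := Ioi 0))
      simpa using h
    have c2 : Tendsto (fun η : ℝ => (1 - η) / (1 + η)) (𝓝[>] 0) (𝓝 1) := by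
      have : ContinuousAt (fun η : ℝ => (1 - η) / (1 + η)) 0 := by
        apply ContinuousAt.div (by fun_prop) (by fun_prop) (by norm_num)
      have h := this.tendsto.mono_left (nhdsWithin_le_nhds (s := Ioi 0))
      simpa using h
    obtain ⟨η, ⟨h1, h2⟩, h3⟩ := (((c1.eventually_lt_const (show (1 : ℝ) < 1 + ε by linarith)).and
      (c2.eventually_const_lt (show (1 : ℝ) - ε < 1 by linarith))).and
      (self_mem_nhdsWithin : Ioi (0 : ℝ) ∈ 𝓝[>] 0)).exists
    exact ⟨η, h3, h1, h2⟩
  obtain ⟨j0, hj0⟩ := hsub η hη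
  have hratio : Tendsto (fun j : ℕ => (((j : ℝ) + 1 + 1) ^ 2 + 1) / ((j : ℝ) + 1) ^ 2) atTop (𝓝 1) := by
    have h1 : Tendsto (fun j : ℕ => 1 / ((j : ℝ) + 1)) atTop (𝓝 0) :=
      tendsto_one_div_add_atTop_nhds_zero_nat
    have h2 : Tendsto (fun j : ℕ => (1 + 1 / ((j : ℝ) + 1)) ^ 2 + (1 / ((j : ℝ) + 1)) ^ 2) atTop
        (𝓝 ((1 + 0) ^ 2 + 0 ^ 2)) := ((h1.const_add 1).pow 2).add (h1.pow 2)
    have e : ((1 : ℝ) + 0) ^ 2 + 0 ^ 2 = 1 := by norm_num
    rw [e] at h2
    refine h2.congr fun j => ?_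
    have : ((j : ℝ) + 1) ≠ 0 := by positivity
    field_simp
  obtain ⟨j1, hj1⟩ := eventually_atTop.1 (hratio.eventually_lt_const (show (1 : ℝ) < 1 + η by linarith))
  refine ⟨N (max j0 j1), fun n hn => ?_⟩
  -- the largest `j` with `N j ≤ n`
  have hexj : ∃ j, n < N j := by
    obtain ⟨j, hj⟩ := exists_nat_gt (mass μ A n)
    refine ⟨j, ?_⟩
    by_contra hle
    push Not at hle
    have := mass_mono (μ := μ) A hle
    have := hN1 j
    nlinarith [(Nat.cast_nonneg j : (0 : ℝ) ≤ j)]
  have hj2 : Nat.find hexj ≠ 0 := by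
    intro h0
    have h1 := Nat.find_spec hexj
    rw [h0] at h1
    have h2 : N 0 ≤ N (max j0 j1) := hNmono _ _ (Nat.zero_le _)
    omega
  obtain ⟨j, hj⟩ : ∃ j, Nat.find hexj = j + 1 := Nat.exists_eq_succ_of_ne_zero hj2
  have hnj1 : n < N (j + 1) := by rw [← hj]; exact Nat.find_spec hexj
  have hnj : N j ≤ n := by
    have := Nat.find_min hexj (show j < Nat.find hexj by omega)
    push Not at this
    exact this
  have hjbig : max j0 j1 ≤ j := by
    by_contra hlt
    push Not at hlt
    have h2 : N (j + 1) ≤ N (max j0 j1) := hNmono _ _ hlt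
    omega
  have hMj : 0 < mass μ A (N j) := lt_of_lt_of_le (by positivity) (hN1 j)
  have hMj1 : 0 < mass μ A (N (j + 1)) := lt_of_lt_of_le (by positivity) (hN1 (j + 1))
  have hMn : 0 < mass μ A n := hMj.trans_le (mass_mono A hnj)
  have hr : mass μ A (N (j + 1)) < (1 + η) * mass μ A (N j) := by
    have h1 := hj1 j ((le_max_right _ _).trans hjbig)
    have h2 := hN2 (j + 1)
    push_cast at h2
    have h3 := hN1 j
    rw [div_lt_iff₀ (by positivity)] at h1
    nlinarith
  have a1 := hj0 j ((le_max_left _ _).trans hjbig)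
  have a2 := hj0 (j + 1) (((le_max_left _ _).trans hjbig).trans (Nat.le_succ j))
  rw [Real.dist_eq, abs_lt] at a1 a2
  have b1 : (1 - η) * mass μ A (N j) < cnt A (N j) ω := by
    have := a1.1
    rw [neg_lt_sub_iff_lt_add, ← sub_lt_iff_lt_add', lt_div_iff₀ hMj] at this
    exact this
  have b2 : cnt A (N (j + 1)) ω < (1 + η) * mass μ A (N (j + 1)) := by
    have := a2.2
    rw [sub_lt_iff_lt_add', div_lt_iff₀ hMj1] at this
    exact this
  have c1 : cnt A (N j) ω ≤ cnt A n ω := cnt_mono A ω hnj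
  have c2 : cnt A n ω ≤ cnt A (N (j + 1)) ω := cnt_mono A ω hnj1.le
  have d1 : mass μ A (N j) ≤ mass μ A n := mass_mono A hnj
  have d2 : mass μ A n ≤ mass μ A (N (j + 1)) := mass_mono A hnj1.le
  rw [Real.dist_eq, abs_lt]
  constructor
  · have h1 : (1 - η) / (1 + η) * mass μ A n ≤ cnt A n ω := by
      rcases le_or_gt (1 - η) 0 with h | h
      · have : (1 - η) / (1 + η) ≤ 0 := div_nonpos_of_nonpos_of_nonneg h (by linarith)
        have hc : 0 ≤ cnt A n ω := Finset.sum_nonneg fun i _ =>
          indicator_nonneg (fun _ _ => zero_le_one) ω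
        nlinarith
      · have e1 : mass μ A n ≤ (1 + η) * mass μ A (N j) := d2.trans hr.le
        calc (1 - η) / (1 + η) * mass μ A n ≤ (1 - η) / (1 + η) * ((1 + η) * mass μ A (N j)) :=
              mul_le_mul_of_nonneg_left e1 (by positivity)
          _ = (1 - η) * mass μ A (N j) := by field_simp
          _ ≤ cnt A n ω := by linarith
    have h2 : (1 - η) / (1 + η) ≤ cnt A n ω / mass μ A n := by
      rw [le_div_iff₀ hMn]; exact h1
    linarith
  · have h1 : cnt A n ω ≤ (1 + η) * ((1 + η) * mass μ A (N j)) := by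
      refine (c2.trans b2.le).trans ?_
      exact mul_le_mul_of_nonneg_left hr.le (by linarith)
    have h2 : cnt A n ω / mass μ A n ≤ (1 + η) * (1 + η) := by
      rw [div_le_iff₀ hMn]
      nlinarith [mul_le_mul_of_nonneg_left d1 (show (0 : ℝ) ≤ (1 + η) * (1 + η) by positivity)]
    linarith

end Pool.Agent.Q3.CantorS
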