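import Mathlib

/-!
# Cantor series expansions
-/

set_option autoImplicit false

open Filter Topology Set

namespace Pool.Agent.Q3.CantorS

/-- `D_n = q_1 ⋯ q_n` (with `q i` for `q_{i+1}`). -/
def D (q : ℕ → ℕ) (n : ℕ) : ℕ := ∏ i ∈ Finset.range n, q i

/-- `T_{Q,n}(x)`. -/
noncomputable def TT (q : ℕ → ℕ) (x : ℝ) (n : ℕ) : ℝ := Int.fract ((D q n : ℝ) * x)

/-- The digit `E_{n+1}(x)`. -/
noncomputable def dig (q : ℕ → ℕ) (x : ℝ) (n : ℕ) : ℕ := ⌊(q n : ℝ) * TT q x n⌋₊

section

variable {q : ℕ → ℕ} (hq : ∀ n, 2 ≤ q n)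

theorem D_succ (q : ℕ → ℕ) (n : ℕ) : D q (n + 1) = D q n * q n := Finset.prod_range_succ _ _

include hq in
theorem D_pos (n : ℕ) : 0 < D q n := Finset.prod_pos fun i _ => by have := hq i; omega

include hq in
theorem D_pos' (n : ℕ) : (0 : ℝ) < D q n := by exact_mod_cast D_pos hq n

include hq in
theorem q_pos' (n : ℕ) : (0 : ℝ) < q n := by
  have : 0 < q n := by have := hq n; omega
  exact_mod_cast this

/-- Partial sums. -/
noncomputable def FF (q e : ℕ → ℕ) (n : ℕ) : ℝ := ∑ m ∈ Finset.range n, (e m : ℝ) / D q (m + 1)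

theorem FF_succ (q e : ℕ → ℕ) (n : ℕ) : FF q e (n + 1) = FF q e n + (e n : ℝ) / D q (n + 1) :=
  Finset.sum_range_succ _ _

/-- The value. -/
noncomputable def val (q e : ℕ → ℕ) : ℝ := ∑' m, (e m : ℝ) / D q (m + 1)

/-- The integers `D_n F_n`. -/
def aN (q e : ℕ → ℕ) : ℕ → ℕ
  | 0 => 0
  | n + 1 => q n * aN q e n + e n

include hq in
theorem FF_eq (e : ℕ → ℕ) (n : ℕ) : (D q n : ℝ) * FF q e n = aN q e n := by
  induction n with
  | zero => simp [FF, aN]
  | succ n ih =>
    have h1 := D_pos' hq n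
    have h2 := q_pos' hq n
    rw [FF_succ, D_succ, aN]
    push_cast
    rw [← ih]
    field_simp

theorem aN_congr {e e' : ℕ → ℕ} {n : ℕ} (h : ∀ i < n, e i = e' i) : aN q e n = aN q e' n := by
  induction n with
  | zero => rfl
  | succ n ih =>
    rw [aN, aN, ih fun i hi => h i (by omega), h n (by omega)]

theorem aN_inj {e e' : ℕ → ℕ} (he : ∀ n, e n < q n) (he' : ∀ n, e' n < q n) {n : ℕ}
    (h : aN q e n = aN q e' n) : ∀ i < n, e i = e' i := by
  induction n with
  | zero => intro i hi; omega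
  | succ n ih =>
    rw [aN, aN] at h
    have h1 : e n = e' n := by
      have := congrArg (· % q n) h
      simp only [Nat.mul_add_mod] at this
      rwa [Nat.mod_eq_of_lt (he n), Nat.mod_eq_of_lt (he' n)] at this
    have hqn : 0 < q n := lt_of_le_of_lt (Nat.zero_le _) (he n)
    have h2 : aN q e n = aN q e' n := by
      rw [h1] at h
      exact Nat.eq_of_mul_eq_mul_left hqn (Nat.add_right_cancel h)
    intro i hi
    rcases Nat.lt_succ_iff_lt_or_eq.1 hi with h3 | h3
    · exact ih h2 i h3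
    · rw [h3]; exact h1

variable {e : ℕ → ℕ} (he : ∀ n, e n < q n)

include hq in
theorem FF_mono (e : ℕ → ℕ) : Monotone (FF q e) := by
  refine monotone_nat_of_le_succ fun n => ?_
  rw [FF_succ]
  have := D_pos' hq (n + 1)
  have : 0 ≤ (e n : ℝ) / D q (n + 1) := by positivity
  linarith

include hq he in
theorem FF_step (n : ℕ) : FF q e (n + 1) + 1 / D q (n + 1) ≤ FF q e n + 1 / D q n := by
  have h1 := D_pos' hq n
  have h2 := q_pos' hq n
  have h3 : (e n : ℝ) + 1 ≤ q n := by exact_mod_cast he n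
  rw [FF_succ, D_succ]
  push_cast
  have e1 : (1 : ℝ) / D q n = q n / (D q n * q n) := by field_simp
  rw [e1, add_assoc, ← add_div]
  gcongr

include hq he in
theorem FF_anti {n m : ℕ} (h : n ≤ m) : FF q e m + 1 / D q m ≤ FF q e n + 1 / D q n := by
  induction m, h using Nat.le_induction with
  | base => exact le_rfl
  | succ m _ ih => exact (FF_step hq he m).trans ih

include hq he in
theorem summable_e : Summable fun m => (e m : ℝ) / D q (m + 1) := by
  refine summable_of_sum_range_le (c := 1) (fun n => ?_) fun n => ?_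
  · have := D_pos' hq (n + 1); positivity
  · have h := FF_anti hq he (Nat.zero_le n)
    have h2 := D_pos' hq n
    have h3 : (0 : ℝ) < 1 / D q n := by positivity
    have h4 : FF q e 0 + 1 / D q 0 = 1 := by simp [FF, D]
    show FF q e n ≤ 1
    linarith

include hq he in
theorem tendsto_FF : Tendsto (FF q e) atTop (𝓝 (val q e)) :=
  (summable_e hq he).hasSum.tendsto_sum_nat

include hq he in
theorem FF_le_val (n : ℕ) : FF q e n ≤ val q e :=
  (FF_mono hq e).ge_of_tendsto (tendsto_FF hq he) n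

include hq he in
theorem val_le (n : ℕ) : val q e ≤ FF q e n + 1 / D q n := by
  refine le_of_tendsto (tendsto_FF hq he) ?_
  filter_upwards [eventually_ge_atTop n] with m hm
  have := FF_anti hq he hm
  have h2 := D_pos' hq m
  have h3 : (0 : ℝ) < 1 / D q m := by positivity
  linarith

/-- Remainders. -/
noncomputable def rem (q e : ℕ → ℕ) (n : ℕ) : ℝ := (D q n : ℝ) * (val q e - FF q e n)

include hq he in
theorem rem_nonneg (n : ℕ) : 0 ≤ rem q e n := by
  have := FF_le_val hq he n
  have := D_pos' hq n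
  unfold rem
  apply mul_nonneg <;> linarith

include hq he in
theorem rem_le_one (n : ℕ) : rem q e n ≤ 1 := by
  have h1 := val_le hq he n
  have h2 := D_pos' hq n
  unfold rem
  have : (D q n : ℝ) * (val q e - FF q e n) ≤ D q n * (1 / D q n) :=
    mul_le_mul_of_nonneg_left (by linarith) h2.le
  rwa [mul_one_div_cancel h2.ne'] at this

include hq in
theorem rem_rec (e : ℕ → ℕ) (n : ℕ) : (q n : ℝ) * rem q e n = e n + rem q e (n + 1) := by
  have h1 := D_pos' hq n
  have h2 := q_pos' hq n
  unfold rem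
  rw [FF_succ, D_succ]
  push_cast
  field_simp
  ring

include hq he in
theorem rem_lt_one {n0 : ℕ} (h : ∀ m, n0 ≤ m → e m + 2 ≤ q m) (n : ℕ) : rem q e n < 1 := by
  have big : ∀ m, n0 ≤ m → rem q e m < 1 := by
    intro m hm
    have h1 := rem_rec hq e m
    have h2 := rem_le_one hq he (m + 1)
    have h3 := q_pos' hq m
    have h4 : (e m : ℝ) + 2 ≤ q m := by exact_mod_cast h m hm
    nlinarith
  by_contra hcon
  -- descend
  have desc : ∀ j, j ≤ n0 → rem q e (n0 - j) < 1 := by
    intro j
    induction j with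
    | zero => intro _; exact big n0 le_rfl
    | succ j ih =>
      intro hj
      have h0 := ih (by omega)
      have e1 : n0 - j = (n0 - (j + 1)) + 1 := by omega
      rw [e1] at h0
      have h1 := rem_rec hq e (n0 - (j + 1))
      have h3 := q_pos' hq (n0 - (j + 1))
      have h4 : (e (n0 - (j + 1)) : ℝ) + 1 ≤ q (n0 - (j + 1)) := by exact_mod_cast he _
      nlinarith
  apply hcon
  rcases le_or_gt n0 n with h1 | h1
  · exact big n h1
  · have := desc (n0 - n) (by omega)
    rwa [show n0 - (n0 - n) = n by omega] at this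

include hq he in
theorem TT_val {n0 : ℕ} (h : ∀ m, n0 ≤ m → e m + 2 ≤ q m) (n : ℕ) :
    TT q (val q e) n = rem q e n := by
  have h1 : (D q n : ℝ) * val q e = ((aN q e n : ℕ) : ℤ) + rem q e n := by
    unfold rem
    have := FF_eq hq e n
    push_cast
    rw [← this]; ring
  unfold TT
  rw [h1, Int.fract_intCast_add, Int.fract_eq_self]
  exact ⟨rem_nonneg hq he n, rem_lt_one hq he h n⟩

include hq he in
theorem dig_val {n0 : ℕ} (h : ∀ m, n0 ≤ m → e m + 2 ≤ q m) (n : ℕ) :
    dig q (val q e) n = e n := by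
  unfold dig
  rw [TT_val hq he h, rem_rec hq e n, Nat.floor_eq_iff]
  · exact ⟨by linarith [rem_nonneg hq he (n + 1)], by linarith [rem_lt_one hq he h (n + 1)]⟩
  · have := rem_nonneg hq he (n + 1)
    positivity

end

end Pool.Agent.Q3.CantorS
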