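import Pool.Agent.Q3.CantorS.Model

/-!
# Normal but not distribution normal: full Hausdorff dimension
-/

set_option autoImplicit false

open Filter Topology Set MeasureTheory
open scoped ENNReal NNReal

namespace Pool.Agent.Q3.CantorS

variable {q : ℕ → ℕ}

/-- `Q_n^{(k)}`. -/
noncomputable def Qk (q : ℕ → ℕ) (k n : ℕ) : ℝ :=
  ∑ j ∈ Finset.range n, 1 / ∏ t ∈ Finset.range k, (q (j + t) : ℝ)

open Classical in
/-- `N_n^Q(B, x)`. -/
noncomputable def NB (q : ℕ → ℕ) {k : ℕ} (B : Fin k → ℕ) (x : ℝ) (n : ℕ) : ℕ :=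
  ((Finset.range n).filter (fun i => ∀ t : Fin k, dig q x (i + t) = B t)).card

/-- `Q`-normal of order `k`. -/
def NormalOrder (q : ℕ → ℕ) (k : ℕ) (x : ℝ) : Prop :=
  ∀ B : Fin k → ℕ, Tendsto (fun n : ℕ => (NB q B x n : ℝ) / Qk q k n) atTop (𝓝 1)

open Classical in
/-- `Q`-distribution normal. -/
def DistNormal (q : ℕ → ℕ) (x : ℝ) : Prop :=
  ∀ a b : ℝ, 0 ≤ a → a < b → b ≤ 1 → Tendsto (fun N : ℕ =>
    (((Finset.range N).filter (fun n => TT q x n ∈ Ico a b)).card : ℝ) / N) atTop (𝓝 (b - a))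

/-! ### growth -/

theorem growth (hq : ∀ n, 2 ≤ q n) (hlim : Tendsto q atTop atTop) {η : ℝ} (hη : 0 < η) :
    ∀ᶠ m in atTop, 12 * (2 : ℝ) ^ m ≤ (D q m : ℝ) ^ η := by
  have h1 : ∀ᶠ m in atTop, (4 : ℝ) ≤ (q m : ℝ) ^ η := by
    have : Tendsto (fun m => (q m : ℝ) ^ η) atTop atTop :=
      (tendsto_rpow_atTop hη).comp (tendsto_natCast_atTop_atTop.comp hlim)
    exact this.eventually_ge_atTop 4
  obtain ⟨m0, hm0⟩ := eventually_atTop.1 h1
  obtain ⟨u0, hu0⟩ : ∃ u0, u0 = (D q m0 : ℝ) ^ η / 2 ^ m0 := ⟨_, rfl⟩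
  have hu0p : 0 < u0 := by
    rw [hu0]
    have := D_pos' hq m0
    positivity
  have key : ∀ j, u0 * 2 ^ j * 2 ^ (m0 + j) ≤ (D q (m0 + j) : ℝ) ^ η := by
    intro j
    induction j with
    | zero => rw [hu0]; simp
    | succ j ih =>
      rw [← add_assoc, D_succ]
      push_cast
      have hD := D_pos' hq (m0 + j)
      have hqp := q_pos' hq (m0 + j)
      rw [Real.mul_rpow hD.le hqp.le]
      have h2 := hm0 (m0 + j) (by omega)
      calc u0 * 2 ^ (j + 1) * 2 ^ (m0 + j + 1) = (u0 * 2 ^ j * 2 ^ (m0 + j)) * 4 := by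
            rw [pow_succ, pow_succ]; ring
        _ ≤ (D q (m0 + j) : ℝ) ^ η * (q (m0 + j) : ℝ) ^ η := by
            apply mul_le_mul ih h2 (by norm_num) (by positivity)
  obtain ⟨j0, hj0⟩ := pow_unbounded_of_one_lt (12 / u0) (show (1 : ℝ) < 2 by norm_num)
  filter_upwards [eventually_ge_atTop (m0 + j0)] with m hm
  obtain ⟨j, rfl⟩ : ∃ j, m = m0 + j := ⟨m - m0, by omega⟩
  refine le_trans ?_ (key j)
  apply mul_le_mul_of_nonneg_right _ (by positivity)
  rw [div_lt_iff₀ hu0p] at hj0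
  have h3 : (2 : ℝ) ^ j0 ≤ 2 ^ j := pow_le_pow_right₀ (by norm_num) (by omega)
  nlinarith

theorem interval_small (hq : ∀ n, 2 ≤ q n) (hlim : Tendsto q atTop atTop) {d : ℝ} (hd0 : 0 < d)
    (hd : d < 1) : ∃ r0 > 0, ∀ r, 0 < r → r < r0 → ∀ c,
      (PP q).real {ω | xx q ω ∈ Icc (c - r) (c + r)} ≤ r ^ d := by
  obtain ⟨m0, hm0⟩ := eventually_atTop.1 (growth hq hlim (show 0 < 1 - d by linarith))
  have hDm := D_pos' hq m0
  refine ⟨1 / (2 * D q m0), by positivity, fun r hr hr0 c => ?_⟩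
  classical
  have hex : ∃ n, 1 ≤ (D q n : ℝ) * (2 * r) := by
    have : Tendsto (fun n => (D q n : ℝ)) atTop atTop := by
      have h2 : ∀ n, 2 ^ n ≤ D q n := by
        intro n
        unfold D
        calc 2 ^ n = ∏ _i ∈ Finset.range n, 2 := by simp
          _ ≤ _ := Finset.prod_le_prod' fun i _ => hq i
      have h3 : Tendsto (fun n : ℕ => (2 : ℝ) ^ n) atTop atTop :=
        tendsto_pow_atTop_atTop_of_one_lt (by norm_num)
      exact tendsto_atTop_mono (fun n => by exact_mod_cast h2 n) h3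
    obtain ⟨n, hn⟩ := (this.eventually_ge_atTop (1 / (2 * r))).exists
    refine ⟨n, ?_⟩
    rw [div_le_iff₀ (by positivity)] at hn
    exact hn
  obtain ⟨n, hn⟩ : ∃ n, n = Nat.find hex := ⟨_, rfl⟩
  have hn1 : 1 ≤ (D q n : ℝ) * (2 * r) := by rw [hn]; exact Nat.find_spec hex
  have hmono : Monotone (D q) := monotone_nat_of_le_succ fun n => by
    rw [D_succ]
    have := hq n
    exact Nat.le_mul_of_pos_right _ (by omega)
  have hlow : (D q m0 : ℝ) * (2 * r) < 1 := by
    rw [lt_div_iff₀ (by positivity)] at hr0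
    linarith
  have hnm : m0 < n := by
    by_contra hle
    push Not at hle
    have h1 : (D q n : ℝ) ≤ D q m0 := by exact_mod_cast hmono hle
    nlinarith
  obtain ⟨m, rfl⟩ : ∃ m, n = m + 1 := ⟨n - 1, by omega⟩
  have hm : (D q m : ℝ) * (2 * r) < 1 := by
    have := Nat.find_min hex (show m < Nat.find hex by omega)
    push Not at this
    exact this
  have h1 := PP_interval hq (m + 1) (c - r) (2 * r) hn1
  have e : c - r + 2 * r = c + r := by ring
  rw [e] at h1
  refine h1.trans ?_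
  have hg := hm0 m (by omega)
  have hDp := D_pos' hq m
  have h2 : (D q m : ℝ) ^ (1 - d) ≤ (1 / r) ^ (1 - d) := by
    apply Real.rpow_le_rpow hDp.le _ (by linarith)
    rw [le_div_iff₀ hr]
    nlinarith
  have h3 : (1 / r) ^ (1 - d) * r = r ^ d := by
    rw [one_div, Real.inv_rpow hr.le, ← Real.rpow_neg hr.le]
    nth_rewrite 2 [← Real.rpow_one r]
    rw [← Real.rpow_add hr]
    congr 1
    ring
  calc 3 * (2 * r) * 2 ^ (m + 1) = (12 * 2 ^ m) * r := by rw [pow_succ]; ring
    _ ≤ (1 / r) ^ (1 - d) * r := mul_le_mul_of_nonneg_right (hg.trans h2) hr.le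
    _ = r ^ d := h3

theorem le_hausdorff (hq : ∀ n, 2 ≤ q n) (hlim : Tendsto q atTop atTop) {d : ℝ} (hd0 : 0 < d)
    (hd : d < 1) : (PP q).map (xx q) ≤ μH[d] := by
  obtain ⟨r0, hr0, hsmall⟩ := interval_small hq hlim hd0 hd
  refine Measure.le_hausdorffMeasure d _ (ENNReal.ofReal (r0 / 2)) (by simpa using hr0) ?_
  intro s hs
  rcases s.eq_empty_or_nonempty with rfl | ⟨x0, hx0⟩
  · simp
  obtain ⟨r, hr⟩ : ∃ r, r = (Metric.ediam s).toReal := ⟨_, rfl⟩
  have hfin : Metric.ediam s ≠ ∞ := ne_top_of_le_ne_top ENNReal.ofReal_ne_top hs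
  have hrr : Metric.ediam s = ENNReal.ofReal r := by rw [hr, ENNReal.ofReal_toReal hfin]
  have hr0' : 0 ≤ r := by rw [hr]; exact ENNReal.toReal_nonneg
  have hrs : r ≤ r0 / 2 := by
    rw [hrr] at hs
    exact (ENNReal.ofReal_le_ofReal_iff (by linarith)).1 hs
  have hbound : ∀ᶠ t : ℝ in 𝓝[>] 0, (PP q).map (xx q) s ≤ ENNReal.ofReal ((r + t) ^ d) := by
    filter_upwards [Ioo_mem_nhdsGT (show (0 : ℝ) < r0 / 2 by linarith)] with t ht
    have hsub : s ⊆ Icc (x0 - (r + t)) (x0 + (r + t)) := by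
      intro y hy
      have h1 : edist y x0 ≤ Metric.ediam s := Metric.edist_le_ediam_of_mem hy hx0
      rw [hrr, edist_dist, ENNReal.ofReal_le_ofReal_iff hr0', Real.dist_eq, abs_le] at h1
      constructor <;> linarith [h1.1, h1.2, ht.1]
    refine (measure_mono hsub).trans ?_
    rw [Measure.map_apply (measurable_xx hq) measurableSet_Icc]
    have h2 := hsmall (r + t) (by linarith [ht.1]) (by linarith [ht.2]) x0
    rw [Measure.real] at h2
    rw [← ENNReal.ofReal_toReal (measure_ne_top (PP q) (xx q ⁻¹' Icc (x0 - (r + t)) (x0 + (r + t))))]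
    exact ENNReal.ofReal_le_ofReal h2
  have hlim' : Tendsto (fun t : ℝ => ENNReal.ofReal ((r + t) ^ d)) (𝓝[>] 0)
      (𝓝 (ENNReal.ofReal ((r + 0) ^ d))) := by
    apply ENNReal.tendsto_ofReal
    have hc : ContinuousAt (fun t : ℝ => (r + t) ^ d) 0 :=
      ContinuousAt.rpow_const (by fun_prop) (Or.inr hd0.le)
    exact hc.tendsto.mono_left nhdsWithin_le_nhds
  have := ge_of_tendsto hlim' hbound
  rw [add_zero, ← ENNReal.ofReal_rpow_of_nonneg hr0' hd0.le] at this
  rwa [hrr]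

/-! ### normality -/

theorem ratio_perturb {a b a' b' : ℕ → ℝ} {C : ℝ} (h : Tendsto (fun n => a n / b n) atTop (𝓝 1))
    (hb : Tendsto b atTop atTop) (ha' : ∀ n, |a' n - a n| ≤ C) (hb' : ∀ n, |b' n - b n| ≤ C) :
    Tendsto (fun n => a' n / b' n) atTop (𝓝 1) := by
  have h1 : Tendsto (fun n => (a' n - a n) / b n) atTop (𝓝 0) :=
    tendsto_zero_of_bdd_div ha' hb
  have h2 : Tendsto (fun n => (b' n - b n) / b n) atTop (𝓝 0) :=
    tendsto_zero_of_bdd_div hb' hb
  have h3 := (h.add h1).div (h2.const_add 1) (by norm_num)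
  rw [add_zero, div_one] at h3
  refine h3.congr' ?_
  filter_upwards [hb.eventually_gt_atTop 0] with n hn
  simp only [Pi.div_apply]
  have e1 : a n / b n + (a' n - a n) / b n = a' n / b n := by rw [← add_div]; congr 1; ring
  have e2 : 1 + (b' n - b n) / b n = b' n / b n := by field_simp; ring
  rw [e1, e2, div_div_div_cancel_right₀ hn.ne']
where
  tendsto_zero_of_bdd_div {u b : ℕ → ℝ} {C : ℝ} (hu : ∀ n, |u n| ≤ C) (hb : Tendsto b atTop atTop) :
      Tendsto (fun n => u n / b n) atTop (𝓝 0) := by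
    have h0 : Tendsto (fun n => C / b n) atTop (𝓝 0) := hb.const_div_atTop C
    refine squeeze_zero_norm' ?_ h0
    filter_upwards [hb.eventually_gt_atTop 0] with n hn
    rw [Real.norm_eq_abs, abs_div, abs_of_pos hn]
    exact div_le_div_of_nonneg_right (hu n) hn.le

theorem sum_perturb {f g : ℕ → ℝ} {i0 : ℕ} (h0 : ∀ i, 0 ≤ f i ∧ f i ≤ 1) (h1 : ∀ i, 0 ≤ g i ∧ g i ≤ 1)
    (h : ∀ i, i0 ≤ i → f i = g i) (n : ℕ) :
    |∑ i ∈ Finset.range n, f i - ∑ i ∈ Finset.range n, g i| ≤ i0 := by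
  rw [← Finset.sum_sub_distrib]
  calc |∑ i ∈ Finset.range n, (f i - g i)| ≤ ∑ i ∈ Finset.range n, |f i - g i| :=
        Finset.abs_sum_le_sum_abs _ _
    _ ≤ ∑ i ∈ Finset.range n, (if i < i0 then (1 : ℝ) else 0) := by
        refine Finset.sum_le_sum fun i _ => ?_
        split_ifs with hi
        · rw [abs_le]; constructor <;> linarith [(h0 i).1, (h0 i).2, (h1 i).1, (h1 i).2]
        · rw [h i (by omega)]; simp
    _ ≤ ∑ i ∈ Finset.range i0, (1 : ℝ) := by
        rw [← Finset.sum_filter]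
        apply Finset.sum_le_sum_of_subset_of_nonneg
        · intro i hi
          rw [Finset.mem_filter] at hi
          exact Finset.mem_range.2 hi.2
        · intro _ _ _; norm_num
    _ = i0 := by simp

theorem digits_ok (hq : ∀ n, 2 ≤ q n) (hlim : Tendsto q atTop atTop) (ω : ℕ → ℕ) (n : ℕ) :
    dig q (xx q ω) n = ee q ω n ∧ TT q (xx q ω) n = rem q (ee q ω) n := by
  obtain ⟨n0, hn0⟩ := eventually_atTop.1 (hlim.eventually_ge_atTop 3)
  have h : ∀ m, n0 ≤ m → ee q ω m + 2 ≤ q m := by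
    intro m hm
    have h1 := hn0 m hm
    have h2 := ee_lt hq ω m
    omega
  exact ⟨dig_val hq (ee_lt' hq ω) h n, TT_val hq (ee_lt' hq ω) h n⟩

theorem ae_block (hq : ∀ n, 2 ≤ q n) (hlim : Tendsto q atTop atTop) {k : ℕ} (B : Fin k → ℕ)
    (hQ : Tendsto (Qk q k) atTop atTop) :
    ∀ᵐ ω ∂(PP q), Tendsto (fun n : ℕ => (NB q B (xx q ω) n : ℝ) / Qk q k n) atTop (𝓝 1) := by
  classical
  obtain ⟨b, hb⟩ : ∃ b : ℕ → ℕ, ∀ t : Fin k, b t = B t :=
    ⟨fun t => if h : t < k then B ⟨t, h⟩ else 0, fun t => by simp⟩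
  obtain ⟨M, hM⟩ : ∃ M, ∀ t < k, b t ≤ M := ⟨∑ t ∈ Finset.range k, b t, fun t ht =>
    Finset.single_le_sum (fun _ _ => Nat.zero_le _) (Finset.mem_range.2 ht)⟩
  obtain ⟨i0, hi0⟩ := eventually_atTop.1 (hlim.eventually_ge_atTop (3 * M + 3))
  have hmass : ∀ n, |Qk q k n - mass (PP q) (Ev b k) n| ≤ i0 := by
    intro n
    unfold Qk mass
    apply sum_perturb
    · intro i
      have h1 : (1 : ℝ) ≤ ∏ t ∈ Finset.range k, (q (i + t) : ℝ) := by
        calc (1 : ℝ) = ∏ _t ∈ Finset.range k, (1 : ℝ) := by simp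
          _ ≤ _ := Finset.prod_le_prod (fun _ _ => zero_le_one) fun t _ => by
            have := hq (i + t)
            have : (2 : ℝ) ≤ q (i + t) := by exact_mod_cast this
            linarith
      constructor
      · positivity
      · rw [div_le_one (by linarith)]; exact h1
    · intro i
      exact ⟨measureReal_nonneg, measureReal_le_one⟩
    · intro i hi
      rw [PP_Ev hq]
      intro t ht
      have h1 := hi0 (i + t) (by omega)
      have h2 := hM t ht
      omega
  have hMtend : Tendsto (mass (PP q) (Ev b k)) atTop atTop := by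
    have h1 : Tendsto (fun n => Qk q k n + (-(i0 : ℝ))) atTop atTop :=
      tendsto_atTop_add_const_right _ _ hQ
    refine tendsto_atTop_mono (fun n => ?_) h1
    have := abs_le.1 (hmass n)
    linarith [this.2]
  have h1 := ae_ratio (μ := PP q) (A := Ev b k) (fun i => measurable_box _ _) (k := k)
    (fun i j h => Ev_indep i j h) hMtend
  filter_upwards [h1, ae_lt hq] with ω hω hlt
  refine ratio_perturb hω hMtend (C := i0) (fun n => ?_) hmass
  have e1 : (NB q B (xx q ω) n : ℝ) = ∑ i ∈ Finset.range n,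
      (if ∀ t : Fin k, dig q (xx q ω) (i + t) = B t then (1 : ℝ) else 0) := by
    unfold NB
    rw [Finset.card_filter]; push_cast; rfl
  rw [e1]
  unfold cnt
  apply sum_perturb
  · intro i; split_ifs <;> norm_num
  · intro i
    by_cases h : ω ∈ Ev b k i <;> simp [h]
  · intro i hi
    have hiff : (∀ t : Fin k, dig q (xx q ω) (i + t) = B t) ↔ ω ∈ Ev b k i := by
      rw [mem_Ev]
      constructor
      · intro h t ht
        have h2 := h ⟨t, ht⟩
        simp only at h2
        rw [(digits_ok hq hlim ω (i + t)).1] at h2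
        have h3 := hi0 (i + t) (by omega)
        have h4 := hM t ht
        have h5 : b t = B ⟨t, ht⟩ := hb ⟨t, ht⟩
        rw [← h5] at h2
        exact (fold_eq (hlt (i + t)) (by omega)).1 h2
      · intro h t
        rw [(digits_ok hq hlim ω (i + t)).1]
        have h3 := hi0 (i + t) (by omega)
        have h4 := hM t t.2
        rw [← hb t]
        exact (fold_eq (hlt (i + t)) (by omega)).2 (h t t.2)
    by_cases h : ω ∈ Ev b k i
    · rw [if_pos (hiff.2 h)]; simp [h]
    · rw [if_neg (fun h' => h (hiff.1 h'))]; simp [h]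

theorem not_distNormal (hq : ∀ n, 2 ≤ q n) (hlim : Tendsto q atTop atTop) (ω : ℕ → ℕ) :
    ¬ DistNormal q (xx q ω) := by
  classical
  intro h
  have h1 := h (3 / 4) 1 (by norm_num) (by norm_num) le_rfl
  obtain ⟨n0, hn0⟩ := eventually_atTop.1 (hlim.eventually_ge_atTop 9)
  have hT : ∀ n, n0 ≤ n → TT q (xx q ω) n < 3 / 4 := by
    intro n hn
    rw [(digits_ok hq hlim ω n).2]
    have h2 := rem_rec hq (ee q ω) n
    have h3 := rem_le_one hq (ee_lt' hq ω) (n + 1)
    have h4 := ee_lt hq ω n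
    have h5 := hn0 n hn
    have h6 : 3 * (ee q ω n + 1) ≤ 2 * q n + 2 := by omega
    have h7 : (3 : ℝ) * ((ee q ω n : ℝ) + 1) ≤ 2 * q n + 2 := by exact_mod_cast h6
    have h8 : (9 : ℝ) ≤ q n := by exact_mod_cast h5
    by_contra hge
    push Not at hge
    nlinarith
  have h2 : Tendsto (fun N : ℕ => (((Finset.range N).filter
      (fun n => TT q (xx q ω) n ∈ Ico (3 / 4 : ℝ) 1)).card : ℝ) / N) atTop (𝓝 0) := by
    have h3 : Tendsto (fun N : ℕ => (n0 : ℝ) / N) atTop (𝓝 0) :=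
      tendsto_const_div_atTop_nhds_zero_nat _
    refine squeeze_zero (fun N => by positivity) (fun N => ?_) h3
    apply div_le_div_of_nonneg_right _ (Nat.cast_nonneg N)
    have hsub : (Finset.range N).filter (fun n => TT q (xx q ω) n ∈ Ico (3 / 4 : ℝ) 1) ⊆
        Finset.range n0 := by
      intro n hn
      rw [Finset.mem_filter] at hn
      rw [Finset.mem_range]
      by_contra hge
      push Not at hge
      exact absurd (hT n hge) (not_lt.2 hn.2.1)
    have := Finset.card_le_card hsub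
    rw [Finset.card_range] at this
    exact_mod_cast this
  have := tendsto_nhds_unique h1 h2
  norm_num at this

/-- The main theorem. -/
theorem dimH_eq_one (hq : ∀ n, 2 ≤ q n) (hlim : Tendsto q atTop atTop)
    (hdiv : ∀ k, 1 ≤ k → Tendsto (Qk q k) atTop atTop) :
    dimH {x : ℝ | (∀ k, 1 ≤ k → NormalOrder q k x) ∧ ¬ DistNormal q x} = 1 := by
  obtain ⟨S, hS⟩ : ∃ S, S = {x : ℝ | (∀ k, 1 ≤ k → NormalOrder q k x) ∧ ¬ DistNormal q x} :=
    ⟨_, rfl⟩
  rw [← hS]
  have hae : ∀ᵐ ω ∂(PP q), xx q ω ∈ S := by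
    have h1 : ∀ᵐ ω ∂(PP q), ∀ k, 1 ≤ k → ∀ B : Fin k → ℕ,
        Tendsto (fun n : ℕ => (NB q B (xx q ω) n : ℝ) / Qk q k n) atTop (𝓝 1) := by
      rw [ae_all_iff]
      intro k
      by_cases hk : 1 ≤ k
      · have : ∀ᵐ ω ∂(PP q), ∀ B : Fin k → ℕ,
            Tendsto (fun n : ℕ => (NB q B (xx q ω) n : ℝ) / Qk q k n) atTop (𝓝 1) := by
          rw [ae_all_iff]
          intro B
          exact ae_block hq hlim B (hdiv k hk)
        filter_upwards [this] with ω hω _
        exact hω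
      · exact Eventually.of_forall fun ω h => absurd h hk
    filter_upwards [h1] with ω hω
    rw [hS]
    exact ⟨hω, not_distNormal hq hlim ω⟩
  have hone : 1 ≤ (PP q).map (xx q) S := by
    have h1 := Measure.le_map_apply (μ := PP q) (measurable_xx hq).aemeasurable S
    refine le_trans ?_ h1
    have h2 : (PP q) (xx q ⁻¹' S) = (PP q) univ := by
      apply measure_congr
      filter_upwards [hae] with ω hω
      exact propext ⟨fun _ => trivial, fun _ => hω⟩
    rw [h2, measure_univ]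
  apply le_antisymm
  · exact (dimH_mono (subset_univ S)).trans (by rw [Real.dimH_univ])
  · refine le_of_forall_lt fun c hc => ?_
    obtain ⟨d, hcd, hd⟩ := ENNReal.lt_iff_exists_nnreal_btwn.1 hc
    have hd1 : (d : ℝ) < 1 := by exact_mod_cast hd
    have hd0 : 0 < (d : ℝ) := by
      have : 0 < d := by
        by_contra h0
        push Not at h0
        have : d = 0 := le_antisymm h0 bot_le
        rw [this] at hcd
        simp at hcd
      exact_mod_cast this
    have h1 := le_hausdorff hq hlim hd0 hd1 S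
    have h2 : μH[(d : ℝ)] S ≠ 0 := by
      intro h0
      rw [h0] at h1
      exact absurd (hone.trans h1) (by simp)
    exact hcd.trans_le (le_dimH_of_hausdorffMeasure_ne_zero h2)

end Pool.Agent.Q3.CantorS
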