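import Pool.Agent.Q3.CantorS.Bc
import Pool.Agent.Q3.CantorS.Digits

/-!
# The random model for the Cantor series
-/

set_option autoImplicit false

open Filter Topology Set MeasureTheory
open scoped ENNReal

namespace Pool.Agent.Q3.CantorS

section

variable (q : ℕ → ℕ)

/-- Uniform measure on `{0, …, q_n - 1}` (Dirac at `0` if `q_n = 0`). -/
noncomputable def nu (n : ℕ) : Measure ℕ :=
  (PMF.uniformOfFinset (Finset.range (q n + (if q n = 0 then 1 else 0)))
    (by rw [Finset.nonempty_range_iff]; split_ifs <;> omega)).toMeasure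

instance (n : ℕ) : IsProbabilityMeasure (nu q n) := by unfold nu; infer_instance

/-- The product measure. -/
noncomputable def PP : Measure (ℕ → ℕ) := Measure.infinitePi (nu q)

instance : IsProbabilityMeasure (PP q) := by unfold PP; infer_instance

variable {q}

theorem nu_apply (hq : ∀ n, 2 ≤ q n) (n : ℕ) (t : Set ℕ) [DecidablePred (· ∈ t)] :
    nu q n t = (((Finset.range (q n)).filter (· ∈ t)).card : ℝ≥0∞) / q n := by
  have h0 : q n ≠ 0 := by have := hq n; omega
  have e : q n + (if q n = 0 then 1 else 0) = q n := by rw [if_neg h0]; rfl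
  unfold nu
  rw [PMF.toMeasure_uniformOfFinset_apply _ _ (MeasurableSet.of_discrete)]
  rw [Finset.card_range]
  simp only [e]
  congr 3
  exact Finset.filter_congr_decidable _ _ _

theorem nu_real (hq : ∀ n, 2 ≤ q n) (n : ℕ) (t : Set ℕ) [DecidablePred (· ∈ t)] :
    (nu q n).real t = (((Finset.range (q n)).filter (· ∈ t)).card : ℝ) / q n := by
  rw [Measure.real, nu_apply hq]
  rw [ENNReal.toReal_div]; simp

/-- Probability of a box. -/
theorem PP_box (s : Finset ℕ) (t : ℕ → Set ℕ) :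
    (PP q).real (Set.pi (s : Set ℕ) t) = ∏ m ∈ s, (nu q m).real (t m) := by
  unfold PP
  rw [Measure.real, Measure.infinitePi_pi _ fun i _ => MeasurableSet.of_discrete,
    ENNReal.toReal_prod]
  rfl

theorem measurable_box (s : Finset ℕ) (t : ℕ → Set ℕ) :
    MeasurableSet (Set.pi (s : Set ℕ) t : Set (ℕ → ℕ)) :=
  MeasurableSet.pi s.countable_toSet fun _ _ => MeasurableSet.of_discrete

theorem PP_inter (s s' : Finset ℕ) (hd : Disjoint s s') (t t' : ℕ → Set ℕ) :
    (PP q).real (Set.pi (s : Set ℕ) t ∩ Set.pi (s' : Set ℕ) t') =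
      (PP q).real (Set.pi (s : Set ℕ) t) * (PP q).real (Set.pi (s' : Set ℕ) t') := by
  classical
  let h : ℕ → Set ℕ := fun m => if m ∈ s then t m else t' m
  have h1 : Set.pi (s : Set ℕ) t = Set.pi (s : Set ℕ) h := by
    apply Set.pi_congr rfl
    intro m hm
    have : m ∈ s := hm
    simp [h, this]
  have h2 : Set.pi (s' : Set ℕ) t' = Set.pi (s' : Set ℕ) h := by
    apply Set.pi_congr rfl
    intro m hm
    have : m ∉ s := fun h' => (Finset.disjoint_left.1 hd h') hm
    simp [h, this]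
  rw [h1, h2, ← Set.union_pi, ← Finset.coe_union, PP_box, PP_box, PP_box,
    Finset.prod_union hd]

/-- Events: the digits `i, …, i+k-1` are `b 0, …, b (k-1)`. -/
def Ev (b : ℕ → ℕ) (k i : ℕ) : Set (ℕ → ℕ) :=
  Set.pi ((Finset.Ico i (i + k) : Finset ℕ) : Set ℕ) (fun m => {b (m - i)})

theorem mem_Ev {b : ℕ → ℕ} {k i : ℕ} {ω : ℕ → ℕ} :
    ω ∈ Ev b k i ↔ ∀ t < k, ω (i + t) = b t := by
  unfold Ev
  rw [Set.mem_pi]
  constructor
  · intro h t ht
    have := h (i + t) (by simp [ht])
    simpa using this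
  · intro h m hm
    simp only [Finset.coe_Ico, Set.mem_Ico] at hm
    have := h (m - i) (by omega)
    rw [show i + (m - i) = m by omega] at this
    simpa using this

theorem Ev_indep {b : ℕ → ℕ} {k : ℕ} (i j : ℕ) (h : i + k ≤ j) :
    (PP q).real (Ev b k i ∩ Ev b k j) = (PP q).real (Ev b k i) * (PP q).real (Ev b k j) := by
  apply PP_inter
  rw [Finset.disjoint_left]
  intro m hm hm'
  rw [Finset.mem_Ico] at hm hm'
  omega

theorem PP_Ev (hq : ∀ n, 2 ≤ q n) {b : ℕ → ℕ} {k i : ℕ} (h : ∀ t < k, b t < q (i + t)) :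
    (PP q).real (Ev b k i) = 1 / ∏ t ∈ Finset.range k, (q (i + t) : ℝ) := by
  classical
  unfold Ev
  rw [PP_box, Finset.prod_Ico_eq_prod_range, one_div, ← Finset.prod_inv_distrib]
  rw [show i + k - i = k by omega]
  refine Finset.prod_congr rfl fun t ht => ?_
  rw [nu_real hq]
  have e : (Finset.range (q (i + t))).filter (· ∈ ({b (i + t - i)} : Set ℕ)) = {b t} := by
    ext u
    simp only [Finset.mem_filter, Finset.mem_range, Set.mem_singleton_iff, Finset.mem_singleton,
      Nat.add_sub_cancel_left]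
    constructor
    · exact fun h => h.2
    · rintro rfl; exact ⟨h t (Finset.mem_range.1 ht), rfl⟩
  rw [e]
  simp

/-- The folding map. -/
def fold (a u : ℕ) : ℕ := if u % a < a - a / 3 then u % a else u % a - a / 3

theorem fold_lt {a u : ℕ} (ha : 2 ≤ a) : fold a u < a - a / 3 := by
  unfold fold
  have h1 : u % a < a := Nat.mod_lt _ (by omega)
  split_ifs with h
  · exact h
  · omega

theorem fold_eq {a u b : ℕ} (hu : u < a) (hb : b < a - 2 * (a / 3)) : fold a u = b ↔ u = b := by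
  unfold fold
  rw [Nat.mod_eq_of_lt hu]
  split_ifs with h
  · rfl
  · omega

theorem fold_card (a d : ℕ) : ((Finset.range a).filter (fun u => fold a u = d)).card ≤ 2 := by
  have hsub : (Finset.range a).filter (fun u => fold a u = d) ⊆ {d, d + a / 3} := by
    intro u hu
    rw [Finset.mem_filter, Finset.mem_range] at hu
    rw [Finset.mem_insert, Finset.mem_singleton]
    obtain ⟨h1, h2⟩ := hu
    unfold fold at h2
    rw [Nat.mod_eq_of_lt h1] at h2
    split_ifs at h2 <;> omega
  exact (Finset.card_le_card hsub).trans Finset.card_le_two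

/-- Random digits. -/
def ee (q : ℕ → ℕ) (ω : ℕ → ℕ) (n : ℕ) : ℕ := fold (q n) (ω n)

theorem ee_lt (hq : ∀ n, 2 ≤ q n) (ω : ℕ → ℕ) (n : ℕ) : ee q ω n < q n - q n / 3 := fold_lt (hq n)

theorem ee_lt' (hq : ∀ n, 2 ≤ q n) (ω : ℕ → ℕ) (n : ℕ) : ee q ω n < q n :=
  (ee_lt hq ω n).trans_le (Nat.sub_le _ _)

/-- The random real number. -/
noncomputable def xx (q : ℕ → ℕ) (ω : ℕ → ℕ) : ℝ := val q (ee q ω)

theorem measurable_ee (q : ℕ → ℕ) (n : ℕ) : Measurable fun ω : ℕ → ℕ => ee q ω n := by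
  have : (fun ω : ℕ → ℕ => ee q ω n) = (fold (q n)) ∘ (fun ω : ℕ → ℕ => ω n) := rfl
  rw [this]
  exact (measurable_of_countable _).comp (measurable_pi_apply n)

theorem measurable_xx (hq : ∀ n, 2 ≤ q n) : Measurable (xx q) := by
  refine measurable_of_tendsto_metrizable (f := fun n ω => FF q (ee q ω) n) (fun n => ?_) ?_
  · unfold FF
    refine Finset.measurable_sum _ fun m _ => ?_
    have h := measurable_ee q m
    have h2 : Measurable fun ω : ℕ → ℕ => ((ee q ω m : ℕ) : ℝ) :=
      (measurable_of_countable (fun n : ℕ => (n : ℝ))).comp h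
    exact h2.div_const _
  · rw [tendsto_pi_nhds]
    intro ω
    exact tendsto_FF hq (ee_lt' hq ω)

theorem ae_lt (hq : ∀ n, 2 ≤ q n) : ∀ᵐ ω ∂(PP q), ∀ n, ω n < q n := by
  classical
  rw [ae_all_iff]
  intro n
  have h1 : (PP q).real (Set.pi (({n} : Finset ℕ) : Set ℕ) (fun m => {u | u < q m})) = 1 := by
    rw [PP_box, Finset.prod_singleton, nu_real hq]
    have e : (Finset.range (q n)).filter (· ∈ {u | u < q n}) = Finset.range (q n) := by
      apply Finset.filter_true_of_mem
      intro u hu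
      exact Finset.mem_range.1 hu
    rw [e, Finset.card_range, div_self]
    exact (q_pos' hq n).ne'
  have h2 : (PP q) (Set.pi (({n} : Finset ℕ) : Set ℕ) (fun m => {u | u < q m})) = 1 := by
    rw [Measure.real] at h1
    rwa [ENNReal.toReal_eq_one_iff] at h1
  have h3 := (prob_compl_eq_zero_iff (measurable_box {n} (fun m => {u | u < q m}))).2 h2
  rw [ae_iff]
  refine measure_mono_null ?_ h3
  intro ω hω hmem
  apply hω
  have := hmem n (by simp)
  exact this

/-- Probability of given folded digits. -/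
theorem PP_prefix (hq : ∀ n, 2 ≤ q n) (n a : ℕ) :
    (PP q).real {ω | aN q (ee q ω) n = a} ≤ 2 ^ n / D q n := by
  classical
  by_cases hne : ({ω : ℕ → ℕ | aN q (ee q ω) n = a}).Nonempty
  · obtain ⟨ω₀, hω₀⟩ := hne
    have hsub : {ω : ℕ → ℕ | aN q (ee q ω) n = a} ⊆
        Set.pi ((Finset.range n : Finset ℕ) : Set ℕ) (fun m => {u | fold (q m) u = ee q ω₀ m}) := by
      intro ω hω m hm
      have hm' : m < n := by simpa using hm
      have h1 : aN q (ee q ω) n = aN q (ee q ω₀) n := by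
        have e1 : aN q (ee q ω) n = a := hω
        have e2 : aN q (ee q ω₀) n = a := hω₀
        rw [e1, e2]
      exact aN_inj (ee_lt' hq ω) (ee_lt' hq ω₀) h1 m hm'
    refine (measureReal_mono hsub).trans ?_
    rw [PP_box]
    have e : (2 : ℝ) ^ n / D q n = ∏ m ∈ Finset.range n, (2 / (q m : ℝ)) := by
      rw [Finset.prod_div_distrib, Finset.prod_const, Finset.card_range]
      unfold D
      push_cast
      rfl
    rw [e]
    refine Finset.prod_le_prod (fun _ _ => measureReal_nonneg) fun m _ => ?_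
    rw [nu_real hq]
    have hqm := q_pos' hq m
    have := fold_card (q m) (ee q ω₀ m)
    have h2 : (((Finset.range (q m)).filter (· ∈ {u | fold (q m) u = ee q ω₀ m})).card : ℝ) ≤ 2 := by
      exact_mod_cast this
    gcongr
  · rw [Set.not_nonempty_iff_eq_empty] at hne
    rw [hne]
    have := D_pos' hq n
    simp only [measureReal_empty]
    positivity

/-- Probability of an interval. -/
theorem PP_interval (hq : ∀ n, 2 ≤ q n) (n : ℕ) (c r : ℝ) (hr : 1 ≤ (D q n : ℝ) * r) :
    (PP q).real {ω | xx q ω ∈ Icc c (c + r)} ≤ 3 * r * 2 ^ n := by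
  have hD := D_pos' hq n
  obtain ⟨lo, hlo⟩ : ∃ lo : ℤ, lo = ⌈(D q n : ℝ) * c - 1⌉ := ⟨_, rfl⟩
  obtain ⟨K, hK⟩ : ∃ K : ℕ, K = ⌊(D q n : ℝ) * r + 1⌋₊ + 1 := ⟨_, rfl⟩
  have hsub : {ω : ℕ → ℕ | xx q ω ∈ Icc c (c + r)} ⊆
      ⋃ t ∈ Finset.range K, {ω | aN q (ee q ω) n = (lo + (t : ℤ)).toNat} := by
    intro ω hω
    obtain ⟨h1, h2⟩ : c ≤ xx q ω ∧ xx q ω ≤ c + r := hω
    have h3 := FF_le_val hq (ee_lt' hq ω) n
    have h4 := val_le hq (ee_lt' hq ω) n
    have h5 := FF_eq hq (ee q ω) n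
    have h6 : (D q n : ℝ) * c - 1 ≤ aN q (ee q ω) n := by
      rw [← h5]
      have : (D q n : ℝ) * (FF q (ee q ω) n + 1 / D q n) = D q n * FF q (ee q ω) n + 1 := by
        field_simp
      have h7 : (D q n : ℝ) * c ≤ D q n * (FF q (ee q ω) n + 1 / D q n) :=
        mul_le_mul_of_nonneg_left (h1.trans h4) hD.le
      linarith
    have h8 : (aN q (ee q ω) n : ℝ) ≤ D q n * c + D q n * r := by
      rw [← h5, ← mul_add]
      exact mul_le_mul_of_nonneg_left (h3.trans h2) hD.le
    have h9 : lo ≤ (aN q (ee q ω) n : ℤ) := by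
      rw [hlo, Int.ceil_le]; push_cast; exact h6
    have h10 : (D q n : ℝ) * c - 1 ≤ lo := by rw [hlo]; exact Int.le_ceil _
    obtain ⟨t, ht⟩ : ∃ t : ℕ, (aN q (ee q ω) n : ℤ) = lo + t := ⟨((aN q (ee q ω) n : ℤ) - lo).toNat,
      by omega⟩
    have h11 : (t : ℝ) ≤ D q n * r + 1 := by
      have : ((aN q (ee q ω) n : ℕ) : ℝ) = (lo : ℝ) + t := by exact_mod_cast ht
      linarith
    have h12 : t < K := by
      rw [hK]
      have := Nat.le_floor h11
      omega
    simp only [Set.mem_iUnion, Finset.mem_range]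
    refine ⟨t, h12, ?_⟩
    show aN q (ee q ω) n = (lo + (t : ℤ)).toNat
    rw [← ht]; simp
  calc (PP q).real {ω | xx q ω ∈ Icc c (c + r)}
      ≤ (PP q).real (⋃ t ∈ Finset.range K, {ω | aN q (ee q ω) n = (lo + (t : ℤ)).toNat}) :=
        measureReal_mono hsub (measure_ne_top _ _)
    _ ≤ ∑ t ∈ Finset.range K, (PP q).real {ω | aN q (ee q ω) n = (lo + (t : ℤ)).toNat} :=
        measureReal_biUnion_finset_le _ _
    _ ≤ ∑ _t ∈ Finset.range K, (2 : ℝ) ^ n / D q n :=
        Finset.sum_le_sum fun t _ => PP_prefix hq n _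
    _ = K * (2 ^ n / D q n) := by rw [Finset.sum_const, Finset.card_range, nsmul_eq_mul]
    _ ≤ (3 * (D q n * r)) * (2 ^ n / D q n) := by
        apply mul_le_mul_of_nonneg_right _ (by positivity)
        rw [hK]
        push_cast
        have := Nat.floor_le (show (0 : ℝ) ≤ D q n * r + 1 by linarith)
        linarith
    _ = 3 * r * 2 ^ n := by field_simp

end

end Pool.Agent.Q3.CantorS
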